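import Pool.Agent.K4H33.TS.Defs

/-!
# Relations between fractions
-/

set_option autoImplicit false

namespace Pool.Agent.K4H33.TS

variable {ι : Type} [Fintype ι]

/-- Pairwise coprime denominators, prime to `D`. -/
theorem noRelation_coprime {D : ℕ} {h n : ι → ℕ}
    (hn : ∀ l, n l < h l) (hc : ∀ l l', l ≠ l' → Nat.Coprime (h l) (h l'))
    (hcD : ∀ l, Nat.Coprime (h l) D) : NoRelation D h n := by
  classical
  rintro k hk ⟨m, hm⟩ l
  have hpos : ∀ l, 0 < h l := fun l => (Nat.zero_le _).trans_lt (hn l)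
  have h1 : (D : ℤ) * ∑ l, k l * ∏ j ∈ Finset.univ.erase l, (h j : ℤ) =
      m * ∏ j, (h j : ℤ) := by
    have h2 : (D : ℚ) * ∑ l, (k l : ℚ) * ∏ j ∈ Finset.univ.erase l, (h j : ℚ) =
        m * ∏ j, (h j : ℚ) := by
      rw [← hm, mul_assoc, Finset.sum_mul]
      congr 1
      refine Finset.sum_congr rfl fun l _ => ?_
      rw [← Finset.mul_prod_erase Finset.univ _ (Finset.mem_univ l)]
      have : (h l : ℚ) ≠ 0 := by exact_mod_cast (hpos l).ne'
      field_simp
    exact_mod_cast h2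
  have h3 : (h l : ℤ) ∣ (D : ℤ) * (k l * ∏ j ∈ Finset.univ.erase l, (h j : ℤ)) := by
    rw [← Finset.add_sum_erase Finset.univ _ (Finset.mem_univ l), mul_add,
      ← Finset.mul_prod_erase Finset.univ (fun j => (h j : ℤ)) (Finset.mem_univ l)] at h1
    have h4 : (h l : ℤ) ∣ (D : ℤ) * ∑ x ∈ Finset.univ.erase l,
        k x * ∏ j ∈ Finset.univ.erase x, (h j : ℤ) := by
      refine Dvd.dvd.mul_left (Finset.dvd_sum fun x hx => ?_) _
      refine Dvd.dvd.mul_left (Finset.dvd_prod_of_mem (fun j => (h j : ℤ)) ?_) _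
      rw [Finset.mem_erase] at hx ⊢
      exact ⟨Ne.symm hx.1, Finset.mem_univ l⟩
    have h5 : (h l : ℤ) ∣ m * ((h l : ℤ) * ∏ x ∈ Finset.univ.erase l, (h x : ℤ)) :=
      Dvd.dvd.mul_left (dvd_mul_right _ _) _
    rw [← h1] at h5
    exact (dvd_add_left h4).1 h5
  have h6 : IsCoprime (h l : ℤ) (D : ℤ) := Nat.isCoprime_iff_coprime.2 (hcD l)
  have h7 : IsCoprime (h l : ℤ) (∏ j ∈ Finset.univ.erase l, (h j : ℤ)) := by
    refine IsCoprime.prod_right fun j hj => Nat.isCoprime_iff_coprime.2 (hc l j ?_)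
    rw [Finset.mem_erase] at hj
    exact Ne.symm hj.1
  have h8 : (h l : ℤ) ∣ k l := by
    have h9 := h6.dvd_of_dvd_mul_left h3
    exact h7.dvd_of_dvd_mul_right h9
  have h9 := hk l
  have h10 := hn l
  exact Int.eq_zero_of_abs_lt_dvd h8 (lt_of_le_of_lt h9 (by exact_mod_cast h10))

lemma core1 {e : ℕ → ℤ} (he : ∀ m, |e m| ≤ 1) {M : ℤ}
    (heq : 13860 * e 2 + 9240 * e 3 + 6930 * e 4 + 5544 * e 5 + 4620 * e 6 + 3960 * e 7 +
      3465 * e 8 + 3080 * e 9 + 2772 * e 10 + 2520 * e 11 = 27720 * M)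
    (hex : e 2 = 0 ∨ e 3 = 0 ∨ e 6 = 0) : ∀ m, 2 ≤ m → m ≤ 11 → e m = 0 := by
  have he' : ∀ m, -1 ≤ e m ∧ e m ≤ 1 := fun m => abs_le.1 (he m)
  have e11 : e 11 = 0 := by
    obtain ⟨t, ht⟩ : ∃ t, 2520 * e 11 = 11 * t := ⟨2520 * M - (1260 * e 2 + 840 * e 3 + 630 * e 4 +
      504 * e 5 + 420 * e 6 + 360 * e 7 + 315 * e 8 + 280 * e 9 + 252 * e 10), by linarith⟩
    have := he' 11
    omega
  rw [e11] at heq
  have e7 : e 7 = 0 := by
    obtain ⟨t, ht⟩ : ∃ t, 3960 * e 7 = 7 * t := ⟨3960 * M - (1980 * e 2 + 1320 * e 3 + 990 * e 4 +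
      792 * e 5 + 660 * e 6 + 495 * e 8 + 440 * e 9 + 396 * e 10), by linarith⟩
    have := he' 7
    omega
  rw [e7] at heq
  have e9 : e 9 = 0 := by
    obtain ⟨t, ht⟩ : ∃ t, 3080 * e 9 = 3 * t := ⟨9240 * M - (4620 * e 2 + 3080 * e 3 + 2310 * e 4 +
      1848 * e 5 + 1540 * e 6 + 1155 * e 8 + 924 * e 10), by linarith⟩
    have := he' 9
    omega
  rw [e9] at heq
  have e510 : e 5 = 0 ∧ e 10 = 0 := by
    obtain ⟨t, ht⟩ : ∃ t, 5544 * e 5 + 2772 * e 10 = 5 * t := ⟨5544 * M - (2772 * e 2 +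
      1848 * e 3 + 1386 * e 4 + 924 * e 6 + 693 * e 8), by linarith⟩
    have := he' 5
    have := he' 10
    omega
  rw [e510.1, e510.2] at heq
  have e8 : e 8 = 0 := by
    obtain ⟨t, ht⟩ : ∃ t, 3465 * e 8 = 2 * t := ⟨13860 * M - (6930 * e 2 +
      4620 * e 3 + 3465 * e 4 + 2310 * e 6), by linarith⟩
    have := he' 8
    omega
  rw [e8] at heq
  have e4 : e 4 = 0 := by
    obtain ⟨t, ht⟩ : ∃ t, 6930 * e 4 = 4 * t := ⟨6930 * M - (3465 * e 2 +
      2310 * e 3 + 1155 * e 6), by linarith⟩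
    have := he' 4
    omega
  rw [e4] at heq
  have h6 : 3 * e 2 + 2 * e 3 + e 6 = 6 * M := by linarith
  have h236 : e 2 = 0 ∧ e 3 = 0 ∧ e 6 = 0 := by
    have h2 := he' 2
    have h3 := he' 3
    have h6' := he' 6
    rcases hex with h | h | h <;> rw [h] at h6 <;> refine ⟨?_, ?_, ?_⟩ <;> omega
  intro m hm hm'
  interval_cases m
  · exact h236.1
  · exact h236.2.1
  · exact e4
  · exact e510.1
  · exact h236.2.2
  · exact e7
  · exact e8
  · exact e9
  · exact e510.2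
  · exact e11

lemma core2 {e : ℕ → ℤ} (he : ∀ m, |e m| ≤ 1) {M : ℤ}
    (heq : 2 * (9240 * e 3 + 6930 * e 4 + 5544 * e 5 + 4620 * e 6 + 3960 * e 7 +
      3465 * e 8 + 3080 * e 9 + 2772 * e 10 + 2520 * e 11) = 27720 * M)
    (hex : e 3 = 0 ∨ e 6 = 0) : ∀ m, 3 ≤ m → m ≤ 11 → e m = 0 := by
  have he' : ∀ m, -1 ≤ e m ∧ e m ≤ 1 := fun m => abs_le.1 (he m)
  have e11 : e 11 = 0 := by
    obtain ⟨t, ht⟩ : ∃ t, 2 * (2520 * e 11) = 11 * t := ⟨2520 * M - 2 * (840 * e 3 + 630 * e 4 +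
      504 * e 5 + 420 * e 6 + 360 * e 7 + 315 * e 8 + 280 * e 9 + 252 * e 10), by linarith⟩
    have := he' 11
    omega
  rw [e11] at heq
  have e7 : e 7 = 0 := by
    obtain ⟨t, ht⟩ : ∃ t, 2 * (3960 * e 7) = 7 * t := ⟨3960 * M - 2 * (1320 * e 3 + 990 * e 4 +
      792 * e 5 + 660 * e 6 + 495 * e 8 + 440 * e 9 + 396 * e 10), by linarith⟩
    have := he' 7
    omega
  rw [e7] at heq
  have e9 : e 9 = 0 := by
    obtain ⟨t, ht⟩ : ∃ t, 2 * (3080 * e 9) = 3 * t := ⟨9240 * M - 2 * (3080 * e 3 + 2310 * e 4 +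
      1848 * e 5 + 1540 * e 6 + 1155 * e 8 + 924 * e 10), by linarith⟩
    have := he' 9
    omega
  rw [e9] at heq
  have e510 : e 5 = 0 ∧ e 10 = 0 := by
    obtain ⟨t, ht⟩ : ∃ t, 2 * (5544 * e 5 + 2772 * e 10) = 5 * t := ⟨5544 * M - 2 * (
      1848 * e 3 + 1386 * e 4 + 924 * e 6 + 693 * e 8), by linarith⟩
    have := he' 5
    have := he' 10
    omega
  rw [e510.1, e510.2] at heq
  have e8 : e 8 = 0 := by
    obtain ⟨t, ht⟩ : ∃ t, 3465 * e 8 = 2 * t := ⟨6930 * M - (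
      4620 * e 3 + 3465 * e 4 + 2310 * e 6), by linarith⟩
    have := he' 8
    omega
  rw [e8] at heq
  have e4 : e 4 = 0 := by
    obtain ⟨t, ht⟩ : ∃ t, 3465 * e 4 = 2 * t := ⟨3465 * M - (
      2310 * e 3 + 1155 * e 6), by linarith⟩
    have := he' 4
    omega
  rw [e4] at heq
  have h6 : 2 * e 3 + e 6 = 3 * M := by linarith
  have h36 : e 3 = 0 ∧ e 6 = 0 := by
    have h3 := he' 3
    have h6' := he' 6
    rcases hex with h | h <;> rw [h] at h6 <;> refine ⟨?_, ?_⟩ <;> omega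
  intro m hm hm'
  interval_cases m
  · exact h36.1
  · exact e4
  · exact e510.1
  · exact h36.2
  · exact e7
  · exact e8
  · exact e9
  · exact e510.2
  · exact e11

section Collect

variable {h n : ι → ℕ} {k : ι → ℤ}

open Classical in
/-- The numerator with the denominator `m`. -/
noncomputable def coll (h : ι → ℕ) (k : ι → ℤ) (m : ℕ) : ℤ := ∑ l, if h l = m then k l else 0

lemma coll_eq (hinj : ∀ l l', n l ≠ 0 → n l' ≠ 0 → h l = h l' → l = l')
    (hk : ∀ l, |k l| ≤ n l) {l : ι} (hl : n l ≠ 0) : coll h k (h l) = k l := by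
  classical
  rw [coll, Finset.sum_eq_single l]
  · rw [if_pos rfl]
  · intro l' _ hne
    split_ifs with h1
    · by_contra hk0
      have h2 : n l' ≠ 0 := by
        intro h0
        have h3 := hk l'
        rw [h0, Nat.cast_zero] at h3
        exact hk0 (abs_eq_zero.1 (le_antisymm h3 (abs_nonneg _)))
      exact hne (hinj l' l h2 hl h1)
    · rfl
  · intro h0
    exact absurd (Finset.mem_univ l) h0

lemma coll_zero (hk : ∀ l, |k l| ≤ n l) {m : ℕ} (hm : ∀ l, n l ≠ 0 → h l ≠ m) :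
    coll h k m = 0 := by
  classical
  rw [coll]
  apply Finset.sum_eq_zero
  intro l _
  split_ifs with h1
  · by_contra hk0
    refine hm l ?_ h1
    intro h0
    have h3 := hk l
    rw [h0, Nat.cast_zero] at h3
    exact hk0 (abs_eq_zero.1 (le_antisymm h3 (abs_nonneg _)))
  · rfl

lemma coll_le (hn : ∀ l, n l ≤ 1) (hinj : ∀ l l', n l ≠ 0 → n l' ≠ 0 → h l = h l' → l = l')
    (hk : ∀ l, |k l| ≤ n l) (m : ℕ) : |coll h k m| ≤ 1 := by
  by_cases h1 : ∃ l, n l ≠ 0 ∧ h l = m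
  · obtain ⟨l, hl, rfl⟩ := h1
    rw [coll_eq hinj hk hl]
    exact (hk l).trans (by exact_mod_cast hn l)
  · push Not at h1
    rw [coll_zero hk h1, abs_zero]
    exact zero_le_one

lemma k_zero (hk : ∀ l, |k l| ≤ n l) {l : ι} (hl : n l = 0) : k l = 0 := by
  have h3 := hk l
  rw [hl, Nat.cast_zero] at h3
  exact abs_eq_zero.1 (le_antisymm h3 (abs_nonneg _))

lemma sum_coll (hk : ∀ l, |k l| ≤ n l) (hb : ∀ l, n l ≠ 0 → h l ≤ 11) :
    ∑ l, (k l : ℚ) / h l = ∑ m ∈ Finset.range 12, (coll h k m : ℚ) / m := by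
  classical
  have h1 : ∀ l, (k l : ℚ) / h l =
      ∑ m ∈ Finset.range 12, (if h l = m then (k l : ℚ) / m else 0) := by
    intro l
    by_cases hl : n l = 0
    · rw [k_zero hk hl]
      simp
    · rw [Finset.sum_ite_eq, if_pos]
      rw [Finset.mem_range]
      exact Nat.lt_succ_of_le (hb l hl)
  rw [Finset.sum_congr rfl fun l _ => h1 l, Finset.sum_comm]
  refine Finset.sum_congr rfl fun m _ => ?_
  rw [coll]
  push_cast
  rw [Finset.sum_div]
  refine Finset.sum_congr rfl fun l _ => ?_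
  split_ifs
  · rfl
  · rw [zero_div]

end Collect

/-- Different denominators between two and eleven, such that two, three and six do not all
occur. -/
theorem noRelation_one {h n : ι → ℕ} (hn : ∀ l, n l ≤ 1)
    (hinj : ∀ l l', n l ≠ 0 → n l' ≠ 0 → h l = h l' → l = l')
    (hlow : ∀ l, n l ≠ 0 → 2 ≤ h l) (hhigh : ∀ l, n l ≠ 0 → h l ≤ 11)
    (hex : (∀ l, n l ≠ 0 → h l ≠ 2) ∨ (∀ l, n l ≠ 0 → h l ≠ 3) ∨ (∀ l, n l ≠ 0 → h l ≠ 6)) :
    NoRelation 1 h n := by
  rintro k hk ⟨M, hM⟩ l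
  rw [sum_coll hk hhigh] at hM
  simp only [Finset.sum_range_succ, Finset.range_zero, Finset.sum_empty] at hM
  have h1 : coll h k 1 = 0 := coll_zero hk fun l hl h1 => by
    have := hlow l hl
    omega
  rw [h1] at hM
  have h2 : 13860 * coll h k 2 + 9240 * coll h k 3 + 6930 * coll h k 4 + 5544 * coll h k 5 +
      4620 * coll h k 6 + 3960 * coll h k 7 + 3465 * coll h k 8 + 3080 * coll h k 9 +
      2772 * coll h k 10 + 2520 * coll h k 11 = 27720 * M := by
    have : (13860 * coll h k 2 + 9240 * coll h k 3 + 6930 * coll h k 4 + 5544 * coll h k 5 +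
      4620 * coll h k 6 + 3960 * coll h k 7 + 3465 * coll h k 8 + 3080 * coll h k 9 +
      2772 * coll h k 10 + 2520 * coll h k 11 : ℚ) = 27720 * M := by
      rw [← hM]
      push_cast
      ring
    exact_mod_cast this
  have h3 := core1 (coll_le hn hinj hk) h2 (by
    rcases hex with h | h | h
    · exact Or.inl (coll_zero hk h)
    · exact Or.inr (Or.inl (coll_zero hk h))
    · exact Or.inr (Or.inr (coll_zero hk h)))
  by_cases hl : n l = 0
  · exact k_zero hk hl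
  · rw [← coll_eq hinj hk hl]
    exact h3 _ (hlow l hl) (hhigh l hl)

/-- Different denominators between one and eleven, such that two, three and six do not all
occur: there is no vanishing sum. -/
theorem noZeroSum {h n : ι → ℕ} (hn : ∀ l, n l ≤ 1)
    (hinj : ∀ l l', n l ≠ 0 → n l' ≠ 0 → h l = h l' → l = l')
    (hlow : ∀ l, n l ≠ 0 → 1 ≤ h l) (hhigh : ∀ l, n l ≠ 0 → h l ≤ 11)
    (hex : (∀ l, n l ≠ 0 → h l ≠ 2) ∨ (∀ l, n l ≠ 0 → h l ≠ 3) ∨ (∀ l, n l ≠ 0 → h l ≠ 6)) :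
    NoZeroSum h n := by
  intro k hk hM l
  rw [sum_coll hk hhigh] at hM
  simp only [Finset.sum_range_succ, Finset.range_zero, Finset.sum_empty] at hM
  have h2 : 13860 * coll h k 2 + 9240 * coll h k 3 + 6930 * coll h k 4 + 5544 * coll h k 5 +
      4620 * coll h k 6 + 3960 * coll h k 7 + 3465 * coll h k 8 + 3080 * coll h k 9 +
      2772 * coll h k 10 + 2520 * coll h k 11 = 27720 * (-coll h k 1) := by
    have : (13860 * coll h k 2 + 9240 * coll h k 3 + 6930 * coll h k 4 + 5544 * coll h k 5 +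
      4620 * coll h k 6 + 3960 * coll h k 7 + 3465 * coll h k 8 + 3080 * coll h k 9 +
      2772 * coll h k 10 + 2520 * coll h k 11 : ℚ) = 27720 * (-coll h k 1) := by
      push_cast at hM ⊢
      linear_combination 27720 * hM
    exact_mod_cast this
  have h3 := core1 (coll_le hn hinj hk) h2 (by
    rcases hex with h | h | h
    · exact Or.inl (coll_zero hk h)
    · exact Or.inr (Or.inl (coll_zero hk h))
    · exact Or.inr (Or.inr (coll_zero hk h)))
  have h4 : coll h k 1 = 0 := by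
    rw [h3 2 (by norm_num) (by norm_num), h3 3 (by norm_num) (by norm_num),
      h3 4 (by norm_num) (by norm_num), h3 5 (by norm_num) (by norm_num),
      h3 6 (by norm_num) (by norm_num), h3 7 (by norm_num) (by norm_num),
      h3 8 (by norm_num) (by norm_num), h3 9 (by norm_num) (by norm_num),
      h3 10 (by norm_num) (by norm_num), h3 11 (by norm_num) (by norm_num)] at h2
    omega
  by_cases hl : n l = 0
  · exact k_zero hk hl
  · rw [← coll_eq hinj hk hl]
    rcases Nat.lt_or_ge (h l) 2 with h5 | h5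
    · have h6 := hlow l hl
      have h7 : h l = 1 := by omega
      rw [h7]
      exact h4
    · exact h3 _ h5 (hhigh l hl)

/-- Different denominators between three and eleven, such that three and six do not both
occur, and half-integral sums. -/
theorem noRelation_two {h n : ι → ℕ} (hn : ∀ l, n l ≤ 1)
    (hinj : ∀ l l', n l ≠ 0 → n l' ≠ 0 → h l = h l' → l = l')
    (hlow : ∀ l, n l ≠ 0 → 3 ≤ h l) (hhigh : ∀ l, n l ≠ 0 → h l ≤ 11)
    (hex : (∀ l, n l ≠ 0 → h l ≠ 3) ∨ (∀ l, n l ≠ 0 → h l ≠ 6)) :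
    NoRelation 2 h n := by
  rintro k hk ⟨M, hM⟩ l
  rw [sum_coll hk hhigh] at hM
  simp only [Finset.sum_range_succ, Finset.range_zero, Finset.sum_empty] at hM
  have h1 : coll h k 1 = 0 := coll_zero hk fun l hl h1 => by
    have := hlow l hl
    omega
  have h1' : coll h k 2 = 0 := coll_zero hk fun l hl h1 => by
    have := hlow l hl
    omega
  rw [h1, h1'] at hM
  have h2 : 2 * (9240 * coll h k 3 + 6930 * coll h k 4 + 5544 * coll h k 5 +
      4620 * coll h k 6 + 3960 * coll h k 7 + 3465 * coll h k 8 + 3080 * coll h k 9 +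
      2772 * coll h k 10 + 2520 * coll h k 11) = 27720 * M := by
    have : (2 * (9240 * coll h k 3 + 6930 * coll h k 4 + 5544 * coll h k 5 +
      4620 * coll h k 6 + 3960 * coll h k 7 + 3465 * coll h k 8 + 3080 * coll h k 9 +
      2772 * coll h k 10 + 2520 * coll h k 11) : ℚ) = 27720 * M := by
      rw [← hM]
      push_cast
      ring
    exact_mod_cast this
  have h3 := core2 (coll_le hn hinj hk) h2 (by
    rcases hex with h | h
    · exact Or.inl (coll_zero hk h)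
    · exact Or.inr (coll_zero hk h))
  by_cases hl : n l = 0
  · exact k_zero hk hl
  · rw [← coll_eq hinj hk hl]
    exact h3 _ (hlow l hl) (hhigh l hl)

end Pool.Agent.K4H33.TS
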