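import Pool.Agent.K4H33.TS.ProdSlope

/-!
# Products of families of varieties with independent slopes
-/

set_option autoImplicit false

open CategoryTheory AlgebraicGeometry
open scoped TensorProduct

universe u v

namespace Pool.Agent.K4H33.TS

open Pool.Agent.H914 Pool.Agent.W534 Pool.Agent.H914.VarClass Pool.Agent.H914.VarClass.Obj
  Pool.Agent.H914.WeilCohomology Pool.Agent.R940 Pool.Agent.TH121.KT Pool.Agent.W458.MF
  Pool.Agent.H281R3.HT Pool.Agent.W552 Pool.Agent.W458.RK Pool.Agent.Y138.TU Pool.Agent.TH132.A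

variable {k : Type u} [Field k] {𝒱 : VarClass k} {ops : CycleOps 𝒱}
  {W : WeilCohomology.{u, v} ops} {Y Z U : 𝒱.Obj} {p : ℕ}
  {Φ : FrobSystem W p} {σ : W.K →+* ℂ} {ι : Type} [DecidableEq ι] {X : ι → 𝒱.Obj}

/-- The slopes of the product are sums of the slopes of the factors. -/
lemma slopes_of_product [IsAlgClosed W.K] [Fact p.Prime] (hRH : ∀ Z, RiemannHyp Φ σ Z)
    (hint : ∀ Z, HasIntegralPolys Φ σ Z) {S : Finset ι} (hZ : IsProductOnce X S Z) :
    ∀ (i : ℕ) (s : ℝ), IsSlope Φ σ Z i s → ∃ (d : ι → ℕ) (t : ι → ℝ),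
      (∀ l ∈ S, IsSlope Φ σ (X l) (d l) (t l)) ∧ ∑ l ∈ S, d l = i ∧ ∑ l ∈ S, t l = s := by
  induction hZ with
  | base l =>
    intro i s h
    refine ⟨fun _ => i, fun _ => s, ?_, by simp, by simp⟩
    intro l' hl'
    rw [Finset.mem_singleton] at hl'
    rw [hl']
    exact h
  | @prod S T Y Z hST _ _ ihY ihZ =>
    intro i s h
    obtain ⟨a, b, s₁, s₂, hab, h1, h2, h12⟩ := slope_prod (hRH Y) (hRH Z) (hint Y) (hint Z)
      (hint _) h
    obtain ⟨d₁, t₁, h3, h4, h5⟩ := ihY a s₁ h1
    obtain ⟨d₂, t₂, h6, h7, h8⟩ := ihZ b s₂ h2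
    have hT : ∀ l ∈ T, l ∉ S := fun l hl hl' => Finset.disjoint_left.1 hST hl' hl
    refine ⟨fun l => if l ∈ S then d₁ l else d₂ l, fun l => if l ∈ S then t₁ l else t₂ l,
      ?_, ?_, ?_⟩
    · intro l hl
      by_cases h : l ∈ S
      · simp only [if_pos h]
        exact h3 l h
      · simp only [if_neg h]
        exact h6 l ((Finset.mem_union.1 hl).resolve_left h)
    · rw [Finset.sum_union hST, Finset.sum_congr rfl fun l hl => if_pos hl, h4,
        Finset.sum_congr rfl fun l hl => if_neg (hT l hl), h7, hab]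
    · rw [Finset.sum_union hST, Finset.sum_congr rfl fun l hl => if_pos hl, h5,
        Finset.sum_congr rfl fun l hl => if_neg (hT l hl), h8, h12]

/-- The slope of the unit class. -/
lemma isSlope_zero [Fact p.Prime] (hint : HasIntegralPolys Φ σ Z) (h1 : (1 : W.H Z) ≠ 0) :
    IsSlope Φ σ Z 0 0 := by
  have he : EigIn Φ Z 1 0 (1 : W.K) :=
    ⟨1, W.one_mem Z, h1, by rw [frob_apply, map_one, one_smul]⟩
  refine he.isSlope hint (y := 1) ?_ ?_
  · rw [minpoly.one, map_sub, Polynomial.aeval_X, map_one, sub_self]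
  · rw [norm_one, neg_zero, Real.rpow_zero]

lemma sum_extend_nat [Fintype ι] (S : Finset ι) (d : ι → ℕ) :
    ∑ l, (if l ∈ S then d l else 0) = ∑ l ∈ S, d l := by
  rw [Finset.sum_ite_mem, Finset.univ_inter]

lemma sum_extend_real [Fintype ι] (S : Finset ι) (d : ι → ℝ) :
    ∑ l, (if l ∈ S then d l else 0) = ∑ l ∈ S, d l := by
  rw [Finset.sum_ite_mem, Finset.univ_inter]

/-- Disjoint products of varieties with independent slopes have disjoint slopes. -/
lemma disjoint_of_independent [Fintype ι] [IsAlgClosed W.K] [Fact p.Prime]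
    (hRH : ∀ Z, RiemannHyp Φ σ Z) (hint : ∀ Z, HasIntegralPolys Φ σ Z)
    (h0 : ∀ l, (1 : W.H (X l)) ≠ 0) (hX : SlopesIndependent Φ σ X) {S T : Finset ι}
    (hST : Disjoint S T) (hY : IsProductOnce X S Y) (hZ : IsProductOnce X T Z) :
    SlopesDisjoint Φ σ Y Z := by
  intro i s j t hs ht hev hsum
  obtain ⟨d₁, t₁, h1, h2, h3⟩ := slopes_of_product hRH hint hY i s hs
  obtain ⟨d₂, t₂, h4, h5, h6⟩ := slopes_of_product hRH hint hZ j t ht
  have hT : ∀ l ∈ T, l ∉ S := fun l hl hl' => Finset.disjoint_left.1 hST hl' hl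
  let d : ι → ℕ := fun l => if l ∈ S then d₁ l else if l ∈ T then d₂ l else 0
  let r : ι → ℝ := fun l => if l ∈ S then t₁ l else if l ∈ T then t₂ l else 0
  have hslope : ∀ l, IsSlope Φ σ (X l) (d l) (r l) := by
    intro l
    simp only [d, r]
    by_cases hl : l ∈ S
    · rw [if_pos hl, if_pos hl]
      exact h1 l hl
    · rw [if_neg hl, if_neg hl]
      by_cases hl' : l ∈ T
      · rw [if_pos hl', if_pos hl']
        exact h4 l hl'
      · rw [if_neg hl', if_neg hl']
        exact isSlope_zero (hint _) (h0 l)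
  have hsplitN : ∀ l, d l = (if l ∈ S then d₁ l else 0) + (if l ∈ T then d₂ l else 0) := by
    intro l
    simp only [d]
    by_cases hl : l ∈ S
    · rw [if_pos hl, if_pos hl, if_neg (fun h => hT l h hl), add_zero]
    · rw [if_neg hl, if_neg hl, zero_add]
  have hsplitR : ∀ l, r l = (if l ∈ S then t₁ l else 0) + (if l ∈ T then t₂ l else 0) := by
    intro l
    simp only [r]
    by_cases hl : l ∈ S
    · rw [if_pos hl, if_pos hl, if_neg (fun h => hT l h hl), add_zero]
    · rw [if_neg hl, if_neg hl, zero_add]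
  have hdsum : ∑ l, d l = i + j := by
    rw [Finset.sum_congr rfl fun l _ => hsplitN l, Finset.sum_add_distrib, sum_extend_nat,
      sum_extend_nat, h2, h5]
  have hrsum : ∑ l, r l = s + t := by
    rw [Finset.sum_congr rfl fun l _ => hsplitR l, Finset.sum_add_distrib, sum_extend_real,
      sum_extend_real, h3, h6]
  have key := hX d r hslope (by rw [hdsum]; exact hev) (by
    rw [hrsum, hsum, ← Nat.cast_sum, hdsum, Nat.cast_add])
  have keyS : ∀ l ∈ S, Even (d₁ l) ∧ t₁ l = (d₁ l : ℝ) / 2 := by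
    intro l hl
    have := key l
    simp only [d, r, if_pos hl] at this
    exact this
  constructor
  · rw [← h2]
    exact Finset.even_sum _ fun l hl => (keyS l hl).1
  · rw [← h3, ← h2, Nat.cast_sum, Finset.sum_div]
    exact Finset.sum_congr rfl fun l hl => (keyS l hl).2

/-- The product of varieties with independent slopes. -/
theorem semisimple_product [Fintype ι] [IsAlgClosed W.K] [Fact p.Prime]
    (hRH : ∀ Z, RiemannHyp Φ σ Z) (hint : ∀ Z, HasIntegralPolys Φ σ Z)
    (h0 : ∀ l, (1 : W.H (X l)) ≠ 0) (hX : SlopesIndependent Φ σ X)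
    (hss : ∀ l c, SemisimpleTateIn Φ (X l) c) {S : Finset ι} (hZ : IsProductOnce X S Z) :
    ∀ c, SemisimpleTateIn Φ Z c := by
  induction hZ with
  | base l => exact hss l
  | @prod S T Y Z hST hY hZ ihY ihZ =>
    intro c
    have hdis := disjoint_of_independent hRH hint h0 hX hST hY hZ
    have hsp := splits_of_disjoint (hRH Y) (hRH Z) (hint Y) (hint Z) hdis ihY
    exact (times_of_splits hsp (homEqNum_of_semisimple (hRH Y) ihY) c).2.2
      fun i _ _ => ihZ (c - i)

/-- The product of all varieties and another variety. -/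
lemma disjoint_of_independentOf [Fintype ι] [IsAlgClosed W.K] [Fact p.Prime]
    (hRH : ∀ Z, RiemannHyp Φ σ Z) (hint : ∀ Z, HasIntegralPolys Φ σ Z)
    (hX : SlopesIndependentOf Φ σ X U) (hZ : IsProductOnce X Finset.univ Z) :
    SlopesDisjoint Φ σ Z U := by
  intro i s j t hs ht hev hsum
  obtain ⟨d, r, h1, h2, h3⟩ := slopes_of_product hRH hint hZ i s hs
  have key := hX d r j t (fun l => h1 l (Finset.mem_univ l)) ht (by rw [h2]; exact hev) (by
    rw [h3, hsum, ← Nat.cast_sum, h2])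
  constructor
  · rw [← h2]
    exact Finset.even_sum _ fun l hl => (key l).1
  · rw [← h3, ← h2, Nat.cast_sum, Finset.sum_div]
    exact Finset.sum_congr rfl fun l hl => (key l).2

/-- The trivial case. -/
lemma subsingleton_of_product {S : Finset ι} (hZ : IsProductOnce X S Z) {l : ι} (hl : l ∈ S)
    (h0 : (1 : W.H (X l)) = 0) : (1 : W.H Z) = 0 := by
  induction hZ with
  | base l' =>
    rw [Finset.mem_singleton] at hl
    subst hl
    exact h0
  | @prod S T Y Z hST hY hZ ihY ihZ =>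
    rcases Finset.mem_union.1 hl with h | h
    · rw [← map_one (W.map (fst Y Z)), ihY h, map_zero]
    · rw [← map_one (W.map (snd Y Z)), ihZ h, map_zero]

lemma semisimple_of_zero (h : (1 : W.H Z) = 0) (c : ℕ) : SemisimpleTateIn Φ Z c := by
  intro s _ x _
  have : x = 0 := by rw [← one_mul x, h, zero_mul]
  rw [this]
  exact Submodule.zero_mem _

lemma tate_of_zero (h : (1 : W.H Z) = 0) (c : ℕ) : TateIn Φ Z c := by
  intro x _
  have : x = 0 := by rw [← one_mul x, h, zero_mul]
  rw [this]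
  exact Submodule.zero_mem _

/-- **All products of varieties with independent slopes.** -/
theorem product_main [Fintype ι] [IsAlgClosed W.K] [Fact p.Prime]
    (hRH : ∀ Z, RiemannHyp Φ σ Z) (hint : ∀ Z, HasIntegralPolys Φ σ Z)
    (hX : SlopesIndependent Φ σ X)
    (hss : ∀ l c, SemisimpleTateIn Φ (X l) c) (hZ : IsProductOnce X Finset.univ Z) :
    (∀ c, SemisimpleTateIn Φ Z c) ∧ (∀ j ≤ Z.dim, PoleFormula Φ σ Z j) := by
  have h1 : ∀ c, SemisimpleTateIn Φ Z c := by
    by_cases h0 : ∀ l, (1 : W.H (X l)) ≠ 0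
    · exact semisimple_product hRH hint h0 hX hss hZ
    · push Not at h0
      obtain ⟨l, hl⟩ := h0
      exact semisimple_of_zero (subsingleton_of_product hZ (Finset.mem_univ l) hl)
  exact ⟨h1, fun j hj => pole_of_semisimple (hRH Z) h1 hj⟩

theorem times_main [Fintype ι] [IsAlgClosed W.K] [Fact p.Prime]
    (hRH : ∀ Z, RiemannHyp Φ σ Z) (hint : ∀ Z, HasIntegralPolys Φ σ Z)
    (hss : ∀ c, SemisimpleTateIn Φ Z c) (hZ : IsProductOnce X Finset.univ Z)
    (hU : SlopesIndependentOf Φ σ X U) (c : ℕ) :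
    (TateIn Φ (Z.prod U) c ↔
      ∀ i ≤ c, (∃ x, Z.IsCyc i x ∧ ¬ HomEq W x 0) → TateIn Φ U (c - i)) ∧
    (SemisimpleTateIn Φ (Z.prod U) c ↔
      ∀ i ≤ c, (∃ x, Z.IsCyc i x ∧ ¬ HomEq W x 0) → SemisimpleTateIn Φ U (c - i)) :=
  times_of_splits (splits_of_disjoint (hRH Z) (hRH U) (hint Z) (hint U)
    (disjoint_of_independentOf hRH hint hU hZ) hss) (homEqNum_of_semisimple (hRH Z) hss) c

end Pool.Agent.K4H33.TS
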