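import Mathlib

/-!
# Embeddings of a number field with a condition on the image of an element
-/

set_option autoImplicit false

open Polynomial Module IntermediateField

namespace Pool.Agent.K4H33.TS

/-- Sums over the embeddings of functions of the image of one element. -/
lemma sum_emb {F B M A : Type*} [Field F] [CharZero F] [Field B] [Algebra F B]
    [FiniteDimensional F B] [Field M]
    [Algebra F M] [FiniteDimensional F M] [Algebra B M] [IsScalarTower F B M] [Field A]
    [Algebra F A] [IsAlgClosed A] (b : B) (g : A → ℕ) :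
    ∑ φ : M →ₐ[F] A, g (φ (algebraMap B M b)) = finrank B M * ∑ φ : B →ₐ[F] A, g (φ b) := by
  classical
  have : FiniteDimensional B M := FiniteDimensional.right F B M
  have : Algebra.IsSeparable B M := Algebra.isSeparable_tower_top_of_isSeparable F B M
  rw [Fintype.sum_equiv algHomEquivSigma (fun σ : M →ₐ[F] A => _)
    fun σ => g (σ.1 b),
    ← Finset.univ_sigma_univ, Finset.sum_sigma, ← smul_eq_mul, ← Finset.sum_nsmul]
  · refine Finset.sum_congr rfl fun σ _ => ?_
    let : Algebra B A := σ.toRingHom.toAlgebra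
    simp_rw [Finset.sum_const, Finset.card_univ, ← AlgHom.card B M A]
  · intro σ
    simp only [algHomEquivSigma, Equiv.coe_fn_mk, AlgHom.domRestrict, AlgHom.comp_apply,
      IsScalarTower.coe_toAlgHom']

/-- The number of the embeddings with a condition on the image of one element. -/
theorem card_emb {F M A : Type*} [Field F] [CharZero F] [Field M] [Algebra F M] [FiniteDimensional F M] [Field A]
    [Algebra F A] [IsAlgClosed A] (x : M) (Q : A → Prop) :
    {φ : M →ₐ[F] A | Q (φ x)}.ncard * (minpoly F x).natDegree =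
      {y : A | aeval y (minpoly F x) = 0 ∧ Q y}.ncard * Fintype.card (M →ₐ[F] A) := by
  classical
  have hx : IsIntegral F x := Algebra.IsIntegral.isIntegral x
  have hfin : FiniteDimensional F F⟮x⟯ := adjoin.finiteDimensional hx
  have h1 : {φ : M →ₐ[F] A | Q (φ x)}.ncard = ∑ φ : M →ₐ[F] A, if Q (φ x) then 1 else 0 := by
    rw [← Finset.card_filter, Set.ncard_eq_toFinset_card']
    congr 1
    ext φ
    simp
  have h2 : {y : A | aeval y (minpoly F x) = 0 ∧ Q y}.ncard =
      ∑ φ : F⟮x⟯ →ₐ[F] A, if Q (φ (AdjoinSimple.gen F x)) then 1 else 0 := by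
    rw [← Finset.card_filter, ← Set.ncard_coe_finset]
    symm
    refine Set.ncard_congr (fun φ _ => φ (AdjoinSimple.gen F x)) ?_ ?_ ?_
    · intro φ hφ
      rw [Finset.coe_filter] at hφ
      refine ⟨?_, hφ.2⟩
      rw [aeval_algHom_apply]
      have : aeval (AdjoinSimple.gen F x) (minpoly F x) = 0 := by
        apply (algebraMap F⟮x⟯ M).injective
        rw [map_zero, ← aeval_algebraMap_apply]
        exact minpoly.aeval F x
      rw [this, map_zero]
    · intro φ ψ _ _ h
      exact (adjoin.powerBasis hx).algHom_ext h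
    · rintro y ⟨hy, hQ⟩
      have hmem : y ∈ (minpoly F x).aroots A := by
        rw [mem_aroots]
        exact ⟨minpoly.ne_zero hx, hy⟩
      have h3 := algHomAdjoinIntegralEquiv_symm_apply_gen F hx (⟨y, hmem⟩ : {y // y ∈ _})
      refine ⟨(algHomAdjoinIntegralEquiv F hx).symm ⟨y, hmem⟩, ?_, h3⟩
      rw [Finset.coe_filter]
      refine ⟨Finset.mem_univ _, ?_⟩
      rw [h3]
      exact hQ
  have h3 := sum_emb (F := F) (M := M) (AdjoinSimple.gen F x) (fun y : A => if Q y then 1 else 0)
  have h4 : algebraMap F⟮x⟯ M (AdjoinSimple.gen F x) = x := rfl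
  rw [h4] at h3
  rw [h1, h2, h3, AlgHom.card, mul_comm (finrank F⟮x⟯ M), mul_assoc]
  congr 1
  rw [← adjoin.finrank hx, mul_comm, finrank_mul_finrank]

end Pool.Agent.K4H33.TS
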