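import Pool.Agent.K4H33.TS.Main

/-!
# The slopes of products
-/

set_option autoImplicit false

open CategoryTheory AlgebraicGeometry
open scoped TensorProduct

universe u v

namespace Pool.Agent.K4H33.TS

open Pool.Agent.H914 Pool.Agent.W534 Pool.Agent.H914.VarClass Pool.Agent.H914.VarClass.Obj
  Pool.Agent.H914.WeilCohomology Pool.Agent.R940 Pool.Agent.TH121.KT Pool.Agent.W458.MF
  Pool.Agent.H281R3.HT Pool.Agent.W552 Pool.Agent.W458.RK Pool.Agent.Y138.TU

variable {k : Type u} [Field k] {𝒱 : VarClass k} {ops : CycleOps 𝒱}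
  {W : WeilCohomology.{u, v} ops} {X Y Z U : 𝒱.Obj} {p : ℕ}
  {Φ : FrobSystem W p} {σ : W.K →+* ℂ}

lemma frobOn_pow (s i : ℕ) : frobOn Φ X s i = frobOn Φ X 1 i ^ s := by
  apply LinearMap.ext
  intro x
  apply Subtype.ext
  have h : ∀ n : ℕ, (((frobOn Φ X 1 i ^ n) x : W.gr X i) : W.H X) =
      (frob Φ X 1 ^ n) (x : W.H X) := by
    intro n
    induction n with
    | zero => rfl
    | succ n ih =>
      rw [pow_succ', pow_succ', Module.End.mul_apply, Module.End.mul_apply, ← ih]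
      rfl
  rw [h]
  change frob Φ X s (x : W.H X) = _
  rw [frob_pow_eq', frob_pow_eq', pow_one]

lemma EigIn.exists_root [IsAlgClosed W.K] {s i : ℕ} {μ : W.K} (h : EigIn Φ X s i μ) :
    ∃ lam, EigIn Φ X 1 i lam ∧ lam ^ s = μ := by
  rw [eigIn_iff, ← Module.End.hasEigenvalue_iff_isRoot_charpoly, frobOn_pow] at h
  obtain ⟨lam, h1, h2⟩ := exists_eigenvalue_of_pow h
  exact ⟨lam, eigIn_iff.2 ((Module.End.hasEigenvalue_iff_isRoot_charpoly _ _).1 h1), h2⟩

/-- homogeneous generalised eigenvectors span -/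
lemma span_homog [IsAlgClosed W.K] (s : ℕ) (x : W.H X) :
    x ∈ Submodule.span W.K {x | ∃ (i : ℕ) (μ : W.K), x ∈ W.gr X i ∧
      x ∈ (frob Φ X s).maxGenEigenspace μ} := by
  have h := span_gen_top (frob Φ X s) x
  induction h using Submodule.span_induction with
  | mem x hx =>
    obtain ⟨μ, hμ⟩ := hx
    rw [sum_proj_apply x]
    refine Submodule.sum_mem _ fun i _ => Submodule.subset_span ⟨i, μ, proj_mem _ _ _, proj_gen hμ⟩
  | zero => exact Submodule.zero_mem _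
  | add x y _ _ hx hy => exact Submodule.add_mem _ hx hy
  | smul c x _ hx => exact Submodule.smul_mem _ _ hx

/-- The eigenvalues of products are products. -/
lemma eig_prod [IsAlgClosed W.K] {A B C : ℕ}
    (hcomm : ∀ x : W.H Y ⊗[W.K] W.H Z,
      frob Φ (Y.prod Z) A (kunnethMap (W.map (fst Y Z)) (W.map (snd Y Z)) x) =
        kunnethMap (W.map (fst Y Z)) (W.map (snd Y Z))
          (TensorProduct.map (frob Φ Y B) (frob Φ Z C) x))
    {i : ℕ} {ν : W.K} (h : EigIn Φ (Y.prod Z) A i ν) :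
    ∃ (a b : ℕ) (μ₁ μ₂ : W.K), a + b = i ∧ EigIn Φ Y B a μ₁ ∧ EigIn Φ Z C b μ₂ ∧
      μ₁ * μ₂ = ν := by
  obtain ⟨x, hxi, hx0, hx⟩ := h
  have hgen := eig_mem_gen hx
  set E := kunnethMap (W.map (fst Y Z)) (W.map (snd Y Z)) with hE
  let M : Set (W.H (Y.prod Z)) := {w | ∃ (a b : ℕ) (μ₁ μ₂ : W.K) (y : W.H Y) (z : W.H Z),
    y ∈ W.gr Y a ∧ z ∈ W.gr Z b ∧ y ∈ (frob Φ Y B).maxGenEigenspace μ₁ ∧
      z ∈ (frob Φ Z C).maxGenEigenspace μ₂ ∧ w = E (y ⊗ₜ z)}
  have hM : ∀ (a b : ℕ) (μ₁ μ₂ : W.K) (y : W.H Y) (z : W.H Z),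
      y ∈ (frob Φ Y B).maxGenEigenspace μ₁ → z ∈ (frob Φ Z C).maxGenEigenspace μ₂ →
      E (y ⊗ₜ z) ∈ (frob Φ (Y.prod Z) A).maxGenEigenspace (μ₁ * μ₂) := by
    intro a b μ₁ μ₂ y z hy hz
    have h1 := gen_mul ((TensorProduct.mk W.K (W.H Y) (W.H Z)).compr₂ E)
      (T'' := frob Φ (Y.prod Z) A) (T := frob Φ Y B) (T' := frob Φ Z C)
      (fun x y => by
        rw [LinearMap.compr₂_apply, LinearMap.compr₂_apply, TensorProduct.mk_apply, hcomm,
          TensorProduct.mk_apply, TensorProduct.map_tmul]) hy hz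
    exact h1
  have hspan : x ∈ Submodule.span W.K M := by
    obtain ⟨x', rfl⟩ := (W.kunneth Y Z).2 x
    clear hgen hx hx0 hxi
    induction x' using TensorProduct.induction_on with
    | zero => rw [map_zero]; exact Submodule.zero_mem _
    | add x y hx hy => rw [map_add]; exact Submodule.add_mem _ hx hy
    | tmul y z =>
      have hy := span_homog (Φ := Φ) B y
      induction hy using Submodule.span_induction with
      | mem y hy =>
        have hz := span_homog (Φ := Φ) C z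
        induction hz using Submodule.span_induction with
        | mem z hz =>
          obtain ⟨a, μ₁, h1, h2⟩ := hy
          obtain ⟨b, μ₂, h3, h4⟩ := hz
          exact Submodule.subset_span ⟨a, b, μ₁, μ₂, y, z, h1, h3, h2, h4, rfl⟩
        | zero => rw [TensorProduct.tmul_zero, map_zero]; exact Submodule.zero_mem _
        | add v w _ _ hv hw =>
          rw [TensorProduct.tmul_add, map_add]; exact Submodule.add_mem _ hv hw
        | smul r v _ hv =>
          rw [TensorProduct.tmul_smul, map_smul]; exact Submodule.smul_mem _ _ hv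
      | zero => rw [TensorProduct.zero_tmul, map_zero]; exact Submodule.zero_mem _
      | add v w _ _ hv hw =>
        rw [TensorProduct.add_tmul, map_add]; exact Submodule.add_mem _ hv hw
      | smul r v _ hv =>
        rw [← TensorProduct.smul_tmul', map_smul]; exact Submodule.smul_mem _ _ hv
  have h2 := mem_span_gen (T := frob Φ (Y.prod Z) A)
    (fun w hw => by
      obtain ⟨a, b, μ₁, μ₂, y, z, -, -, hy, hz, rfl⟩ := hw
      exact ⟨_, hM a b μ₁ μ₂ y z hy hz⟩) hspan hgen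
  by_contra hcon
  apply hx0
  rw [← proj_same (W.isInternal (Y.prod Z)) hxi]
  clear hx0 hxi hx hgen hspan
  induction h2 using Submodule.span_induction with
  | mem w hw =>
    obtain ⟨⟨a, b, μ₁, μ₂, y, z, ha, hb, hy, hz, rfl⟩, hw⟩ := hw
    by_cases h0 : E (y ⊗ₜ z) = 0
    · rw [h0, map_zero]
    · have h3 : E (y ⊗ₜ z) ∈ W.gr (Y.prod Z) (a + b) :=
        W.mul_mem (W.map_mem (fst Y Z) ha) (W.map_mem (snd Y Z) hb)
      by_cases hab : a + b = i
      · exfalso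
        apply hcon
        have hy0 : y ≠ 0 := by
          rintro rfl
          exact h0 (by rw [TensorProduct.zero_tmul, map_zero])
        have hz0 : z ≠ 0 := by
          rintro rfl
          exact h0 (by rw [TensorProduct.tmul_zero, map_zero])
        exact ⟨a, b, μ₁, μ₂, hab, eigIn_of_gen ha hy0 hy, eigIn_of_gen hb hz0 hz,
          eq_of_mem_gen (hM a b μ₁ μ₂ y z hy hz) hw h0⟩
      · exact proj_ne _ h3 hab
  | zero => exact map_zero _
  | add x y _ _ hx hy => rw [map_add, hx, hy, add_zero]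
  | smul c x _ hx => rw [map_smul, hx, smul_zero]

/-- **The slopes of a product are sums of slopes.** -/
theorem slope_prod [IsAlgClosed W.K] [Fact p.Prime] (hRHY : RiemannHyp Φ σ Y)
    (hRHZ : RiemannHyp Φ σ Z) (hintY : HasIntegralPolys Φ σ Y)
    (hintZ : HasIntegralPolys Φ σ Z) (hint : HasIntegralPolys Φ σ (Y.prod Z))
    {i : ℕ} {s : ℝ} (h : IsSlope Φ σ (Y.prod Z) i s) :
    ∃ (a b : ℕ) (s₁ s₂ : ℝ), a + b = i ∧ IsSlope Φ σ Y a s₁ ∧ IsSlope Φ σ Z b s₂ ∧
      s₁ + s₂ = s := by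
  have hp1 : (1 : ℝ) < p := by exact_mod_cast (Fact.out : p.Prime).one_lt
  have hp0 : (0 : ℝ) < p := zero_lt_one.trans hp1
  obtain ⟨ν, y, hν, hy, hs⟩ := h.exists_eig
  obtain ⟨A, B, C, hA, hB, hC, hAB, hAC, hcomm⟩ := exists_comm Φ Y Z
  obtain ⟨a, b, μ₁, μ₂, hab, h1, h2, h12⟩ := eig_prod (A := A) (B := B) (C := C)
    (fun x => by simpa using hcomm 1 x) (hν.pow A)
  obtain ⟨l₁, h3, rfl⟩ := h1.exists_root
  obtain ⟨l₂, h4, rfl⟩ := h2.exists_root
  have hS : ∀ x ∈ ({ν, l₁, l₂} : Set W.K), IsIntegral ℚ x := by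
    rintro x (rfl | rfl | rfl)
    · exact (hν.isIntegral hint).tower_top
    · exact (h3.isIntegral hintY).tower_top
    · exact (h4.isIntegral hintZ).tower_top
  have hνL : ν ∈ IntermediateField.adjoin ℚ ({ν, l₁, l₂} : Set W.K) :=
    IntermediateField.subset_adjoin ℚ _ (by simp)
  have h1L : l₁ ∈ IntermediateField.adjoin ℚ ({ν, l₁, l₂} : Set W.K) :=
    IntermediateField.subset_adjoin ℚ _ (by simp)
  have h2L : l₂ ∈ IntermediateField.adjoin ℚ ({ν, l₁, l₂} : Set W.K) :=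
    IntermediateField.subset_adjoin ℚ _ (by simp)
  obtain ⟨φ, hφ⟩ := exists_emb hS hνL hy
  have hz1 := minpoly_root_of_hom φ ⟨l₁, h1L⟩
  have hz2 := minpoly_root_of_hom φ ⟨l₂, h2L⟩
  have hrel : (φ ⟨l₁, h1L⟩) ^ B * (φ ⟨l₂, h2L⟩) ^ C = y ^ A := by
    rw [← hφ, ← map_pow, ← map_pow, ← map_pow, ← map_mul]
    congr 1
    apply Subtype.ext
    exact h12
  set z₁ := φ ⟨l₁, h1L⟩ with hz1def
  set z₂ := φ ⟨l₂, h2L⟩ with hz2def
  have hz10 : z₁ ≠ 0 := by
    intro h0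
    exact h3.ne_zero hRHY (congrArg Subtype.val ((map_eq_zero φ).1 h0))
  have hz20 : z₂ ≠ 0 := by
    intro h0
    exact h4.ne_zero hRHZ (congrArg Subtype.val ((map_eq_zero φ).1 h0))
  obtain ⟨s₁, hs₁⟩ := exists_rpow (one_lt_pow₀ hp1 (Φ.e_pos Y).ne') (norm_pos_iff.2 hz10)
  obtain ⟨s₂, hs₂⟩ := exists_rpow (one_lt_pow₀ hp1 (Φ.e_pos Z).ne') (norm_pos_iff.2 hz20)
  refine ⟨a, b, s₁, s₂, hab, h3.isSlope hintY hz1 hs₁, h4.isSlope hintZ hz2 hs₂, ?_⟩
  have h5 := congrArg norm hrel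
  rw [norm_mul, norm_pow, norm_pow, norm_pow, hs, hs₁, hs₂, pow_rpow_pow hp0, pow_rpow_pow hp0,
    pow_rpow_pow hp0, ← Real.rpow_add hp0] at h5
  have h6 := (Real.rpow_right_inj hp0 hp1.ne').1 h5
  have hE : ((A * Φ.e (Y.prod Z) : ℕ) : ℝ) ≠ 0 := by
    exact_mod_cast (Nat.mul_pos hA (Φ.e_pos _)).ne'
  have hAB' : ((A * Φ.e (Y.prod Z) : ℕ) : ℝ) = ((B * Φ.e Y : ℕ) : ℝ) := by rw [hAB]
  have hAC' : ((A * Φ.e (Y.prod Z) : ℕ) : ℝ) = ((C * Φ.e Z : ℕ) : ℝ) := by rw [hAC]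
  apply mul_left_cancel₀ hE
  push_cast at h6 hAB' hAC' ⊢
  linear_combination -h6 + s₁ * hAB' + s₂ * hAC'

end Pool.Agent.K4H33.TS
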