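import Pool.Agent.R940.UDefs
import Pool.Agent.TH121.KT.WordDefs

/-!
# Slopes which cannot cancel: definitions
-/

set_option autoImplicit false

open CategoryTheory AlgebraicGeometry Polynomial

universe u v

namespace Pool.Agent.K4H33.TS

open Pool.Agent.H914 Pool.Agent.W534 VarClass Obj WeilCohomology

variable {k : Type u} [Field k] {𝒱 : VarClass k} {ops : CycleOps 𝒱}

/-- The real number `s` is a slope of `X` in degree `i`: the characteristic polynomial `P` of the
Frobenius endomorphism of the model of `X` over the field with `q = p ^ (Φ.e X)` elements on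
`H^i(X)` has integral coefficients and a `p`-adic root of absolute value `q ^ (-s)`. -/
def IsSlope {W : WeilCohomology.{u, v} ops} {p : ℕ} [Fact p.Prime] (Φ : FrobSystem W p)
    (σ : W.K →+* ℂ) (X : 𝒱.Obj) (i : ℕ) (s : ℝ) : Prop :=
  ∃ P : ℤ[X], frobPoly Φ σ X 1 i = P.map (Int.castRingHom ℂ) ∧
    ∃ y : PadicAlgCl p, aeval y P = 0 ∧ ‖y‖ = ((p : ℝ) ^ Φ.e X) ^ (-s)

/-- The variety `Z` is a product of the varieties `X l`, `l ∈ S`, in any order and with any
brackets; each of them occurs once. -/
inductive IsProductOnce {ι : Type} [DecidableEq ι] (X : ι → 𝒱.Obj) : Finset ι → 𝒱.Obj → Prop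
  | base (l : ι) : IsProductOnce X {l} (X l)
  | prod {S T : Finset ι} {Y Z : 𝒱.Obj} : Disjoint S T → IsProductOnce X S Y →
      IsProductOnce X T Z → IsProductOnce X (S ∪ T) (Y.prod Z)

/-- The slopes of the varieties `X l` are independent: if `s l` is a slope of `X l` in degree
`i l` for each `l`, the sum of the `i l` is even and the sum of the `s l` is the half of it, then
all `i l` are even and `s l` is the half of `i l` for each `l`. -/
def SlopesIndependent {W : WeilCohomology.{u, v} ops} {p : ℕ} [Fact p.Prime] (Φ : FrobSystem W p)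
    (σ : W.K →+* ℂ) {ι : Type} [Fintype ι] (X : ι → 𝒱.Obj) : Prop :=
  ∀ (i : ι → ℕ) (s : ι → ℝ), (∀ l, IsSlope Φ σ (X l) (i l) (s l)) → Even (∑ l, i l) →
    ∑ l, s l = (∑ l, (i l : ℝ)) / 2 → ∀ l, Even (i l) ∧ s l = (i l : ℝ) / 2

/-- The slopes of the varieties `X l` cannot be cancelled by slopes of `U`: if `s l` is a slope of
`X l` in degree `i l` for each `l`, `t` is a slope of `U` in degree `j`, the sum of `j` and of the
`i l` is even and the sum of `t` and of the `s l` is the half of it, then all `i l` are even and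
`s l` is the half of `i l` for each `l`. -/
def SlopesIndependentOf {W : WeilCohomology.{u, v} ops} {p : ℕ} [Fact p.Prime]
    (Φ : FrobSystem W p) (σ : W.K →+* ℂ) {ι : Type} [Fintype ι] (X : ι → 𝒱.Obj) (U : 𝒱.Obj) :
    Prop :=
  ∀ (i : ι → ℕ) (s : ι → ℝ) (j : ℕ) (t : ℝ), (∀ l, IsSlope Φ σ (X l) (i l) (s l)) →
    IsSlope Φ σ U j t → Even (∑ l, i l + j) →
    ∑ l, s l + t = (∑ l, (i l : ℝ) + j) / 2 → ∀ l, Even (i l) ∧ s l = (i l : ℝ) / 2

/-- The variety `X` has no cohomology in odd degrees, and the slopes in degree `2 j` are of the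
form `j + k / h` with integers `k` of absolute value at most `n`. For example `X` is a K3 surface
of height `h` and `n = 1`, or a product of `n` such surfaces. -/
structure HasHeight {W : WeilCohomology.{u, v} ops} {p : ℕ} [Fact p.Prime] (Φ : FrobSystem W p)
    (σ : W.K →+* ℂ) (X : 𝒱.Obj) (h n : ℕ) : Prop where
  odd : ∀ i, Odd i → W.gr X i = ⊥
  slope : ∀ (j : ℕ) (s : ℝ), IsSlope Φ σ X (2 * j) s →
    ∃ k : ℤ, |k| ≤ n ∧ s = (j : ℝ) + (k : ℝ) / h

/-- The positive number `D` is a common denominator of the slopes of `U` in even degrees. -/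
def IsEvenDenominator {W : WeilCohomology.{u, v} ops} {p : ℕ} [Fact p.Prime]
    (Φ : FrobSystem W p) (σ : W.K →+* ℂ) (U : 𝒱.Obj) (D : ℕ) : Prop :=
  0 < D ∧ ∀ (j : ℕ) (t : ℝ), IsSlope Φ σ U (2 * j) t → ∃ m : ℤ, (D : ℝ) * t = m

/-- There is no relation between the fractions with denominators `h l` and numerators of absolute
value at most `n l`: if `D` times the sum of the fractions `k l / h l` is an integer, then all
`k l` are zero. -/
def NoRelation {ι : Type} [Fintype ι] (D : ℕ) (h n : ι → ℕ) : Prop :=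
  ∀ k : ι → ℤ, (∀ l, |k l| ≤ n l) → (∃ m : ℤ, (D : ℚ) * ∑ l, (k l : ℚ) / h l = m) →
    ∀ l, k l = 0

/-- No sum of fractions with denominators `h l` and numerators `k l` of absolute value at most
`n l`, not all zero, is zero. -/
def NoZeroSum {ι : Type} [Fintype ι] (h n : ι → ℕ) : Prop :=
  ∀ k : ι → ℤ, (∀ l, |k l| ≤ n l) → ∑ l, (k l : ℚ) / h l = 0 → ∀ l, k l = 0

end Pool.Agent.K4H33.TS
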