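import Pool.Agent.K4H33.TS.Defs
import Pool.Agent.Y138.TU.Main
import Pool.Agent.R940.Main
import Pool.Agent.R940.Kron

/-!
# Eigenvalues, slopes and Kronecker's theorem
-/

set_option autoImplicit false

open CategoryTheory AlgebraicGeometry Polynomial

universe u v

namespace Pool.Agent.K4H33.TS

open Pool.Agent.H914 Pool.Agent.W534 Pool.Agent.H914.VarClass Pool.Agent.H914.VarClass.Obj
  Pool.Agent.H914.WeilCohomology Pool.Agent.R940 Pool.Agent.TH121.KT Pool.Agent.W458.MF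
  Pool.Agent.H281R3.HT Pool.Agent.W552 Pool.Agent.W458.RK

variable {k : Type u} [Field k] {𝒱 : VarClass k} {ops : CycleOps 𝒱}
  {W : WeilCohomology.{u, v} ops} {X Y Z U : 𝒱.Obj} {p : ℕ}
  {Φ : FrobSystem W p} {σ : W.K →+* ℂ}

/-- `ν` is an eigenvalue of the `s`-th power of the Frobenius endomorphism in degree `i`. -/
def EigIn (Φ : FrobSystem W p) (X : 𝒱.Obj) (s i : ℕ) (ν : W.K) : Prop :=
  ∃ x ∈ W.gr X i, x ≠ 0 ∧ frob Φ X s x = ν • x

lemma eigIn_iff {s i : ℕ} {ν : W.K} :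
    EigIn Φ X s i ν ↔ (frobOn Φ X s i).charpoly.IsRoot ν := by
  rw [← Module.End.hasEigenvalue_iff_isRoot_charpoly]
  constructor
  · rintro ⟨x, hx, hx0, hν⟩
    refine Module.End.hasEigenvalue_of_hasEigenvector (x := ⟨x, hx⟩)
      ⟨Module.End.mem_eigenspace_iff.2 (Subtype.ext hν), fun h => hx0 (congrArg Subtype.val h)⟩
  · intro h
    obtain ⟨x, hx, hx0⟩ := h.exists_hasEigenvector
    refine ⟨x, x.2, fun h => hx0 (Subtype.ext h), ?_⟩
    exact congrArg Subtype.val (Module.End.mem_eigenspace_iff.1 hx)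

lemma EigIn.weight (hRH : RiemannHyp Φ σ X) {s i : ℕ} (hs : 0 < s) {ν : W.K}
    (h : EigIn Φ X s i ν) : ‖σ ν‖ ^ 2 = (card Φ X s : ℝ) ^ i := by
  apply hRH s hs i
  rw [frobPoly_eq, IsRoot.def, Polynomial.eval_map, Polynomial.eval₂_hom]
  rw [eigIn_iff, IsRoot.def] at h
  rw [h, map_zero]

/-- the integral polynomial -/
lemma EigIn.poly (hint : HasIntegralPolys Φ σ X) {i : ℕ} {ν : W.K}
    (h : EigIn Φ X 1 i ν) : ∃ P : ℤ[X], P.Monic ∧
      frobPoly Φ σ X 1 i = P.map (Int.castRingHom ℂ) ∧ aeval ν P = 0 := by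
  obtain ⟨P, hP⟩ := hint i
  have h1 : (frobOn Φ X 1 i).charpoly = P.map (Int.castRingHom W.K) := by
    apply Polynomial.map_injective σ σ.injective
    rw [← frobPoly_eq, hP, Polynomial.map_map]
    congr 1
    exact RingHom.ext_int _ _
  refine ⟨P, ?_, hP, ?_⟩
  · refine monic_of_injective (f := Int.castRingHom W.K) Int.cast_injective ?_
    rw [← h1]
    exact LinearMap.charpoly_monic _
  · have h2 := eigIn_iff.1 h
    rw [h1, IsRoot.def, Polynomial.eval_map] at h2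
    rw [aeval_def]
    exact h2

lemma EigIn.isIntegral (hint : HasIntegralPolys Φ σ X) {i : ℕ} {ν : W.K}
    (h : EigIn Φ X 1 i ν) : IsIntegral ℤ ν := by
  obtain ⟨P, h1, -, h3⟩ := h.poly hint
  exact ⟨P, h1, h3⟩

lemma EigIn.isSlope [Fact p.Prime] (hint : HasIntegralPolys Φ σ X) {i : ℕ} {ν : W.K}
    (h : EigIn Φ X 1 i ν) {y : PadicAlgCl p} (hy : aeval y (minpoly ℚ ν) = 0) {s : ℝ}
    (hs : ‖y‖ = ((p : ℝ) ^ Φ.e X) ^ (-s)) : IsSlope Φ σ X i s := by
  obtain ⟨P, -, h2, h3⟩ := h.poly hint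
  exact ⟨P, h2, y, aeval_of_minpoly h3 hy, hs⟩

lemma IsSlope.exists_eig [IsAlgClosed W.K] [Fact p.Prime] {i : ℕ} {s : ℝ}
    (h : IsSlope Φ σ X i s) :
    ∃ (ν : W.K) (y : PadicAlgCl p), EigIn Φ X 1 i ν ∧ aeval y (minpoly ℚ ν) = 0 ∧
      ‖y‖ = ((p : ℝ) ^ Φ.e X) ^ (-s) := by
  obtain ⟨P, hP, y, hy, hs⟩ := h
  have h1 : (frobOn Φ X 1 i).charpoly = P.map (Int.castRingHom W.K) := by
    apply Polynomial.map_injective σ σ.injective
    rw [← frobPoly_eq, hP, Polynomial.map_map]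
    congr 1
    exact RingHom.ext_int _ _
  have hmon : P.Monic := by
    refine monic_of_injective (f := Int.castRingHom W.K) Int.cast_injective ?_
    rw [← h1]
    exact LinearMap.charpoly_monic _
  -- the minimal polynomial of `y`
  have hyi : IsIntegral ℤ y := ⟨P, hmon, hy⟩
  have hyq : IsIntegral ℚ y := hyi.tower_top
  have hdvd : minpoly ℚ y ∣ P.map (Int.castRingHom ℚ) := by
    apply minpoly.dvd
    rw [aeval_def, eval₂_map]
    rw [aeval_def] at hy
    rw [← hy]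
    congr 1
  obtain ⟨ν, hν⟩ := IsAlgClosed.exists_aeval_eq_zero W.K (minpoly ℚ y)
    (minpoly.degree_pos hyq).ne'
  have hmin : minpoly ℚ ν = minpoly ℚ y :=
    (minpoly.eq_of_irreducible_of_monic (minpoly.irreducible hyq) hν (minpoly.monic hyq)).symm
  refine ⟨ν, y, ?_, ?_, hs⟩
  · rw [eigIn_iff, h1, IsRoot.def, Polynomial.eval_map]
    obtain ⟨Q, hQ⟩ := hdvd
    have h2 : aeval ν (P.map (Int.castRingHom ℚ)) = 0 := by rw [hQ, map_mul, hν, zero_mul]
    rw [aeval_def, eval₂_map] at h2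
    rw [← h2]
    congr 1
    exact RingHom.ext_int _ _
  · rw [hmin]
    exact minpoly.aeval _ _

/-- eigenvalues of powers -/
lemma EigIn.pow {i : ℕ} {ν : W.K} (h : EigIn Φ X 1 i ν) (s : ℕ) : EigIn Φ X s i (ν ^ s) := by
  obtain ⟨x, hx, hx0, hν⟩ := h
  refine ⟨x, hx, hx0, ?_⟩
  rw [frob_pow_eq', pow_one] at hν
  rw [frob_pow_eq']
  induction s with
  | zero => rw [pow_zero, pow_zero, one_smul]; rfl
  | succ s ih => rw [pow_succ', Module.End.mul_apply, ih, map_smul, hν, smul_smul, ← pow_succ]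

/-- a ring homomorphism with a given value -/
lemma exists_emb {K A : Type*} [Field K] [CharZero K] [Field A] [CharZero A] [IsAlgClosed A]
    {S : Set K} (hS : ∀ x ∈ S, IsIntegral ℚ x) {x : K}
    (hx : x ∈ IntermediateField.adjoin ℚ S) {y : A} (hy : aeval y (minpoly ℚ x) = 0) :
    ∃ φ : IntermediateField.adjoin ℚ S →ₐ[ℚ] A, φ ⟨x, hx⟩ = y := by
  have halg : ∀ z : IntermediateField.adjoin ℚ S, IsIntegral ℚ z := by
    intro z
    have : Algebra.IsAlgebraic ℚ (IntermediateField.adjoin ℚ S) :=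
      IntermediateField.isAlgebraic_adjoin hS
    exact (Algebra.IsAlgebraic.isAlgebraic z).isIntegral
  refine IntermediateField.exists_algHom_of_splits_of_aeval
    (fun z => ⟨halg z, IsAlgClosed.splits _⟩) (x := ⟨x, hx⟩) (y := y) ?_
  rw [← hy]
  congr 1
  exact (minpoly.algebraMap_eq (algebraMap (IntermediateField.adjoin ℚ S) K).injective
    ⟨x, hx⟩).symm

lemma minpoly_root_of_hom {K A : Type*} [Field K] [CharZero K] [Field A] [CharZero A]
    {L : IntermediateField ℚ K} (φ : L →ₐ[ℚ] A) (x : L) : aeval (φ x) (minpoly ℚ (x : K)) = 0 := by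
  have h1 : aeval x (minpoly ℚ (x : K)) = 0 := by
    apply (algebraMap L K).injective
    rw [map_zero, ← aeval_algebraMap_apply]
    exact minpoly.aeval ℚ (x : K)
  rw [aeval_algHom_apply, h1, map_zero]

lemma norm_natCast_p [Fact p.Prime] : ‖(p : PadicAlgCl p)‖ = (p : ℝ)⁻¹ := by
  have h : ((p : ℚ_[p]) : PadicAlgCl p) = (p : PadicAlgCl p) := map_natCast (algebraMap _ _) p
  rw [← h, PadicAlgCl.norm_extends]
  exact Padic.norm_p

lemma norm_natCast_ne [Fact p.Prime] {l : ℕ} [Fact l.Prime] (h : l ≠ p) :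
    ‖(p : PadicAlgCl l)‖ = 1 := by
  have h1 : ((p : ℚ_[l]) : PadicAlgCl l) = (p : PadicAlgCl l) := map_natCast (algebraMap _ _) p
  rw [← h1, PadicAlgCl.norm_extends, Padic.norm_natCast_eq_one_iff]
  exact (Nat.coprime_primes Fact.out Fact.out).2 h

/-- the conjugates of `ν ^ 2 / N` -/
lemma conj_sq_div {K : Type*} [Field K] [CharZero K] {ν : K} (hν : IsIntegral ℚ ν) (N : ℕ) :
    IsAlgebraic ℚ (ν ^ 2 / (N : K)) ∧ ∀ (A : Type) [Field A] [CharZero A] [IsAlgClosed A] (y : A),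
      aeval y (minpoly ℚ (ν ^ 2 / (N : K))) = 0 → ∃ z : A, aeval z (minpoly ℚ ν) = 0 ∧
        y = z ^ 2 / (N : A) := by
  have hS : ∀ x ∈ ({ν} : Set K), IsIntegral ℚ x := by
    rintro x rfl
    exact hν
  have hνL : ν ∈ IntermediateField.adjoin ℚ {ν} := IntermediateField.subset_adjoin ℚ _ rfl
  have hxL : ν ^ 2 / (N : K) ∈ IntermediateField.adjoin ℚ {ν} :=
    div_mem (pow_mem hνL 2) (natCast_mem _ N)
  constructor
  · have : Algebra.IsAlgebraic ℚ (IntermediateField.adjoin ℚ {ν}) :=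
      IntermediateField.isAlgebraic_adjoin hS
    have h1 : IsAlgebraic ℚ (⟨_, hxL⟩ : IntermediateField.adjoin ℚ {ν}) :=
      Algebra.IsAlgebraic.isAlgebraic _
    exact h1.algebraMap
  · intro A _ _ _ y hy
    obtain ⟨φ, hφ⟩ := exists_emb hS hxL hy
    refine ⟨φ ⟨ν, hνL⟩, minpoly_root_of_hom φ ⟨ν, hνL⟩, ?_⟩
    rw [← hφ, ← map_pow, ← map_natCast φ N, ← map_div₀]
    rfl

/-- **Kronecker**: an eigenvalue all of whose slopes are the half of the degree. -/
theorem EigIn.torsion [Fact p.Prime] (hRH : RiemannHyp Φ σ X) (hint : HasIntegralPolys Φ σ X)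
    {i : ℕ} {ν : W.K} (h : EigIn Φ X 1 i ν)
    (hsl : ∀ y : PadicAlgCl p, aeval y (minpoly ℚ ν) = 0 →
      ‖y‖ = ((p : ℝ) ^ Φ.e X) ^ (-((i : ℝ) / 2))) :
    ∃ n : ℕ, 0 < n ∧ ν ^ (2 * n) = (p : W.K) ^ (Φ.e X * i * n) := by
  have hp0 : (p : W.K) ≠ 0 := by exact_mod_cast (Fact.out : p.Prime).ne_zero
  have hppos : (0 : ℝ) < p := by exact_mod_cast (Fact.out : p.Prime).pos
  have hνint := h.isIntegral hint
  have hνq : IsIntegral ℚ ν := hνint.tower_top
  obtain ⟨P, hP1, hP2, hP3⟩ := h.poly hint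
  have hν0 : ν ≠ 0 := by
    rintro rfl
    have h1 := h.weight hRH one_pos
    rw [map_zero, norm_zero, zero_pow two_ne_zero] at h1
    have h3 : (0 : ℝ) < (card Φ X 1 : ℝ) ^ i := pow_pos (by exact_mod_cast card_pos Φ 1) i
    exact h3.ne h1
  obtain ⟨hxalg, key⟩ := conj_sq_div hνq (p ^ (Φ.e X * i))
  have hx0 : ν ^ 2 / ((p ^ (Φ.e X * i) : ℕ) : W.K) ≠ 0 :=
    div_ne_zero (pow_ne_zero 2 hν0) (by push_cast; exact pow_ne_zero _ hp0)
  obtain ⟨n, hn, hxn⟩ := root_of_unity hxalg hx0 (by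
    intro l _ y hy
    obtain ⟨z, hz, rfl⟩ := key _ y hy
    rw [Nat.cast_pow, norm_div, norm_pow, norm_pow]
    by_cases hl : l = p
    · subst hl
      rw [hsl z hz, norm_natCast_p, ← Real.rpow_natCast, ← Real.rpow_mul (by positivity),
        ← Real.rpow_natCast (l : ℝ) (Φ.e X), ← Real.rpow_mul (by positivity),
        ← Real.rpow_natCast, ← Real.rpow_neg_one, ← Real.rpow_mul (by positivity)]
      apply le_of_eq
      rw [div_eq_one_iff_eq (by positivity)]
      congr 1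
      push_cast
      ring
    · rw [norm_natCast_ne hl, one_pow, div_one]
      have h1 : ‖z‖ ≤ 1 := padic_integral ⟨P, hP1, aeval_of_minpoly hP3 hz⟩
      exact pow_le_one₀ (norm_nonneg _) h1) (by
    intro y hy
    obtain ⟨z, hz, rfl⟩ := key _ y hy
    have h4 : aeval z P = 0 := aeval_of_minpoly hP3 hz
    have h5 := hRH 1 one_pos i z (by
      rw [hP2, IsRoot.def, Polynomial.eval_map]
      exact h4)
    rw [Nat.cast_pow, norm_div, norm_pow, norm_pow, h5, Complex.norm_natCast, W534.card, mul_one]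
    apply le_of_eq
    rw [div_eq_one_iff_eq (by positivity)]
    push_cast
    rw [pow_mul])
  refine ⟨n, hn, ?_⟩
  rw [Nat.cast_pow, div_pow, div_eq_one_iff_eq (pow_ne_zero _ (pow_ne_zero _ hp0)), ← pow_mul,
    ← pow_mul] at hxn
  exact hxn

end Pool.Agent.K4H33.TS
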