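import Pool.Agent.K4H33.TS.Eig

/-!
# Relations between eigenvalues of varieties with disjoint slopes
-/

set_option autoImplicit false

open CategoryTheory AlgebraicGeometry Polynomial

universe u v

namespace Pool.Agent.K4H33.TS

open Pool.Agent.H914 Pool.Agent.W534 Pool.Agent.H914.VarClass Pool.Agent.H914.VarClass.Obj
  Pool.Agent.H914.WeilCohomology Pool.Agent.R940 Pool.Agent.TH121.KT Pool.Agent.W458.MF
  Pool.Agent.H281R3.HT Pool.Agent.W552 Pool.Agent.W458.RK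

variable {k : Type u} [Field k] {𝒱 : VarClass k} {ops : CycleOps 𝒱}
  {W : WeilCohomology.{u, v} ops} {X Y Z U : 𝒱.Obj} {p : ℕ}
  {Φ : FrobSystem W p} {σ : W.K →+* ℂ}

/-- The slopes of `Z` cannot be cancelled by slopes of `U`. -/
def SlopesDisjoint [Fact p.Prime] (Φ : FrobSystem W p) (σ : W.K →+* ℂ) (Z U : 𝒱.Obj) : Prop :=
  ∀ (i : ℕ) (s : ℝ) (j : ℕ) (t : ℝ), IsSlope Φ σ Z i s → IsSlope Φ σ U j t → Even (i + j) →
    s + t = ((i : ℝ) + j) / 2 → Even i ∧ s = (i : ℝ) / 2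

lemma EigIn.ne_zero [Fact p.Prime] (hRH : RiemannHyp Φ σ X) {i : ℕ} {ν : W.K}
    (h : EigIn Φ X 1 i ν) : ν ≠ 0 := by
  rintro rfl
  have h1 := h.weight hRH one_pos
  rw [map_zero, norm_zero, zero_pow two_ne_zero] at h1
  have h3 : (0 : ℝ) < (card Φ X 1 : ℝ) ^ i := pow_pos (by exact_mod_cast card_pos Φ 1) i
  exact h3.ne h1

lemma exists_rpow {q r : ℝ} (hq : 1 < q) (hr : 0 < r) : ∃ s : ℝ, r = q ^ (-s) :=
  ⟨-Real.logb q r, by rw [neg_neg, Real.rpow_logb (zero_lt_one.trans hq) hq.ne' hr]⟩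

lemma pow_rpow_pow {q : ℝ} (hq : 0 < q) (e a : ℕ) (s : ℝ) :
    ((q ^ e) ^ (-s)) ^ a = q ^ (-((a : ℝ) * e * s)) := by
  rw [← Real.rpow_natCast, ← Real.rpow_natCast q e, ← Real.rpow_mul hq.le, ← Real.rpow_mul hq.le]
  congr 1
  ring

/-- The weights in a relation. -/
lemma rel_weight [Fact p.Prime] (hRHZ : RiemannHyp Φ σ Z) (hRHU : RiemannHyp Φ σ U)
    {i j : ℕ} {lam mu : W.K} (hlam : EigIn Φ Z 1 i lam) (hmu : EigIn Φ U 1 j mu) {a b : ℕ}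
    (ha : 0 < a) (hab : a * Φ.e Z = b * Φ.e U) {c : ℤ}
    (h : lam ^ a * mu ^ b = (p : W.K) ^ (((a * Φ.e Z : ℕ) : ℤ) * c)) : ((i + j : ℕ) : ℤ) = 2 * c := by
  have hp1 : (1 : ℝ) < p := by exact_mod_cast (Fact.out : p.Prime).one_lt
  have hp0 : (0 : ℝ) < p := zero_lt_one.trans hp1
  have h1 := hlam.weight hRHZ one_pos
  have h2 := hmu.weight hRHU one_pos
  rw [W534.card, mul_one] at h1 h2
  have h3 := congrArg (fun x => ‖σ x‖ ^ 2) h
  simp only [map_mul, map_pow, map_zpow₀, map_natCast, norm_mul, norm_pow, norm_zpow,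
    Complex.norm_natCast] at h3
  have h4 : (‖σ lam‖ ^ a * ‖σ mu‖ ^ b) ^ 2 = (p : ℝ) ^ ((((a * Φ.e Z) * (i + j) : ℕ)) : ℤ) := by
    rw [mul_pow, ← pow_mul, ← pow_mul, mul_comm a 2, mul_comm b 2, pow_mul, pow_mul, h1, h2,
      zpow_natCast]
    push_cast
    rw [← pow_mul, ← pow_mul, ← pow_mul, ← pow_mul, ← pow_add]
    congr 1
    calc Φ.e Z * (i * a) + Φ.e U * (j * b) = (a * Φ.e Z) * i + (b * Φ.e U) * j := by ring
      _ = _ := by rw [← hab]; ring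
  rw [h4, ← zpow_natCast, ← zpow_mul] at h3
  have h5 := zpow_right_injective₀ hp0 hp1.ne' h3
  have hE : ((a * Φ.e Z : ℕ) : ℤ) ≠ 0 := by
    exact_mod_cast (Nat.mul_pos ha (Φ.e_pos Z)).ne'
  apply mul_left_cancel₀ hE
  push_cast at h5 ⊢
  linear_combination h5

/-- The slopes in a relation. -/
lemma rel_slope [Fact p.Prime] (hRHZ : RiemannHyp Φ σ Z) (hRHU : RiemannHyp Φ σ U)
    (hintZ : HasIntegralPolys Φ σ Z) (hintU : HasIntegralPolys Φ σ U)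
    {i j : ℕ} {lam mu : W.K} (hlam : EigIn Φ Z 1 i lam) (hmu : EigIn Φ U 1 j mu) {a b : ℕ}
    (ha : 0 < a) (hab : a * Φ.e Z = b * Φ.e U) {c : ℤ}
    (h : lam ^ a * mu ^ b = (p : W.K) ^ (((a * Φ.e Z : ℕ) : ℤ) * c))
    {y : PadicAlgCl p} (hy : aeval y (minpoly ℚ lam) = 0) :
    ∃ s t : ℝ, ‖y‖ = ((p : ℝ) ^ Φ.e Z) ^ (-s) ∧ IsSlope Φ σ Z i s ∧ IsSlope Φ σ U j t ∧
      s + t = c := by
  have hp1 : (1 : ℝ) < p := by exact_mod_cast (Fact.out : p.Prime).one_lt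
  have hp0 : (0 : ℝ) < p := zero_lt_one.trans hp1
  have hlamq : IsIntegral ℚ lam := (hlam.isIntegral hintZ).tower_top
  have hmuq : IsIntegral ℚ mu := (hmu.isIntegral hintU).tower_top
  have hS : ∀ x ∈ ({lam, mu} : Set W.K), IsIntegral ℚ x := by
    rintro x (rfl | rfl)
    · exact hlamq
    · exact hmuq
  have hlL : lam ∈ IntermediateField.adjoin ℚ ({lam, mu} : Set W.K) :=
    IntermediateField.subset_adjoin ℚ _ (by simp)
  have hmL : mu ∈ IntermediateField.adjoin ℚ ({lam, mu} : Set W.K) :=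
    IntermediateField.subset_adjoin ℚ _ (by simp)
  obtain ⟨φ, hφ⟩ := exists_emb hS hlL hy
  have hz := minpoly_root_of_hom φ ⟨mu, hmL⟩
  have hrel : (φ ⟨lam, hlL⟩) ^ a * (φ ⟨mu, hmL⟩) ^ b =
      (p : PadicAlgCl p) ^ (((a * Φ.e Z : ℕ) : ℤ) * c) := by
    rw [← map_pow, ← map_pow, ← map_mul, ← map_natCast φ p, ← map_zpow₀]
    congr 1
    apply Subtype.ext
    push_cast
    exact_mod_cast h
  rw [hφ] at hrel
  set z := φ ⟨mu, hmL⟩ with hzdef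
  have hy0 : y ≠ 0 := by
    rw [← hφ]
    intro h0
    exact hlam.ne_zero hRHZ (congrArg Subtype.val ((map_eq_zero φ).1 h0))
  have hz0 : z ≠ 0 := by
    intro h0
    exact hmu.ne_zero hRHU (congrArg Subtype.val ((map_eq_zero φ).1 h0))
  obtain ⟨s, hs⟩ := exists_rpow (one_lt_pow₀ hp1 (Φ.e_pos Z).ne') (norm_pos_iff.2 hy0)
  obtain ⟨t, ht⟩ := exists_rpow (one_lt_pow₀ hp1 (Φ.e_pos U).ne') (norm_pos_iff.2 hz0)
  refine ⟨s, t, hs, hlam.isSlope hintZ hy hs, hmu.isSlope hintU hz ht, ?_⟩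
  have h1 := congrArg norm hrel
  rw [norm_mul, norm_pow, norm_pow, norm_zpow, norm_natCast_p, hs, ht, inv_zpow',
    pow_rpow_pow hp0, pow_rpow_pow hp0, ← Real.rpow_intCast, ← Real.rpow_add hp0] at h1
  have h2 := (Real.rpow_right_inj hp0 hp1.ne').1 h1
  have hE : ((a * Φ.e Z : ℕ) : ℝ) ≠ 0 := by
    exact_mod_cast (Nat.mul_pos ha (Φ.e_pos Z)).ne'
  have hab' : ((a * Φ.e Z : ℕ) : ℝ) = ((b * Φ.e U : ℕ) : ℝ) := by rw [hab]
  apply mul_left_cancel₀ hE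
  push_cast at h2 hab' ⊢
  linear_combination -h2 + t * hab'

/-- **Relations between the eigenvalues are trivial if the slopes are disjoint.** -/
theorem rel_torsion [Fact p.Prime] (hRHZ : RiemannHyp Φ σ Z) (hRHU : RiemannHyp Φ σ U)
    (hintZ : HasIntegralPolys Φ σ Z) (hintU : HasIntegralPolys Φ σ U)
    (hdis : SlopesDisjoint Φ σ Z U)
    {i j : ℕ} {lam mu : W.K} (hlam : EigIn Φ Z 1 i lam) (hmu : EigIn Φ U 1 j mu) {a b : ℕ}
    (ha : 0 < a) (hab : a * Φ.e Z = b * Φ.e U) {c : ℤ}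
    (h : lam ^ a * mu ^ b = (p : W.K) ^ (((a * Φ.e Z : ℕ) : ℤ) * c)) :
    Even i ∧ ∃ n : ℕ, 0 < n ∧ lam ^ (2 * n) = (p : W.K) ^ (Φ.e Z * i * n) := by
  have hw := rel_weight hRHZ hRHU hlam hmu ha hab h
  have hev : Even (i + j) := by
    refine ⟨c.toNat, ?_⟩
    omega
  have hlamq : IsIntegral ℚ lam := (hlam.isIntegral hintZ).tower_top
  have key : ∀ y : PadicAlgCl p, aeval y (minpoly ℚ lam) = 0 →
      Even i ∧ ‖y‖ = ((p : ℝ) ^ Φ.e Z) ^ (-((i : ℝ) / 2)) := by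
    intro y hy
    obtain ⟨s, t, hs, h1, h2, hst⟩ := rel_slope hRHZ hRHU hintZ hintU hlam hmu ha hab h hy
    have h3 := hdis i s j t h1 h2 hev (by
      rw [hst]
      have : ((i + j : ℕ) : ℝ) = 2 * c := by exact_mod_cast hw
      push_cast at this
      linarith)
    exact ⟨h3.1, by rw [hs, h3.2]⟩
  obtain ⟨y, hy⟩ := IsAlgClosed.exists_aeval_eq_zero (PadicAlgCl p) (minpoly ℚ lam)
    (minpoly.degree_pos hlamq).ne'
  exact ⟨(key y hy).1, hlam.torsion hRHZ hintZ fun y hy => (key y hy).2⟩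

end Pool.Agent.K4H33.TS
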