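import Pool.Agent.K4H33.TS.Rel

/-!
# The Tate classes on products of varieties with disjoint slopes split
-/

set_option autoImplicit false

open CategoryTheory AlgebraicGeometry Polynomial
open scoped TensorProduct

universe u v

namespace Pool.Agent.K4H33.TS

open Pool.Agent.H914 Pool.Agent.W534 Pool.Agent.H914.VarClass Pool.Agent.H914.VarClass.Obj
  Pool.Agent.H914.WeilCohomology Pool.Agent.R940 Pool.Agent.TH121.KT Pool.Agent.W458.MF
  Pool.Agent.H281R3.HT Pool.Agent.W552 Pool.Agent.W458.RK Pool.Agent.Y138.TU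

variable {k : Type u} [Field k] {𝒱 : VarClass k} {ops : CycleOps 𝒱}
  {W : WeilCohomology.{u, v} ops} {X Y Z U : 𝒱.Obj} {p : ℕ}
  {Φ : FrobSystem W p} {σ : W.K →+* ℂ}

lemma frob_proj (s i : ℕ) (x : W.H X) :
    frob Φ X s (proj (W.isInternal X) i x) = proj (W.isInternal X) i (frob Φ X s x) :=
  (proj_map _ _ _).symm

lemma frob_mem {s i : ℕ} {x : W.H X} (hx : x ∈ W.gr X i) : frob Φ X s x ∈ W.gr X i :=
  W.map_mem _ hx

/-- Each vector is the sum of its components. -/
lemma sum_proj_apply (x : W.H X) :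
    x = ∑ i ∈ Finset.range (2 * X.dim + 1), proj (W.isInternal X) i x := by
  have h := sum_proj (W.isInternal X) (N := 2 * X.dim + 1)
    (fun i hi => W.gr_eq_bot X i (by omega))
  have h1 := congrArg (fun f : Module.End W.K (W.H X) => f x) h
  simp only [LinearMap.sum_apply, Module.End.one_apply] at h1
  exact h1.symm

/-- A nonzero generalised eigenvector in degree `i`. -/
lemma eigIn_of_gen {s i : ℕ} {μ : W.K} {x : W.H X} (hx : x ∈ W.gr X i) (hx0 : x ≠ 0)
    (h : x ∈ (frob Φ X s).maxGenEigenspace μ) : EigIn Φ X s i μ := by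
  rw [Module.End.mem_maxGenEigenspace] at h
  obtain ⟨n, hn⟩ := h
  have hmem : ∀ n, ((frob Φ X s - μ • (1 : Module.End W.K (W.H X))) ^ n) x ∈ W.gr X i := by
    intro n
    induction n with
    | zero => exact hx
    | succ n ih =>
      rw [pow_succ', Module.End.mul_apply, LinearMap.sub_apply, LinearMap.smul_apply,
        Module.End.one_apply]
      exact Submodule.sub_mem _ (frob_mem ih) (Submodule.smul_mem _ _ ih)
  induction n with
  | zero =>
    rw [pow_zero, Module.End.one_apply] at hn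
    exact absurd hn hx0
  | succ n ih =>
    by_cases h0 : ((frob Φ X s - μ • (1 : Module.End W.K (W.H X))) ^ n) x = 0
    · exact ih h0
    · refine ⟨_, hmem n, h0, ?_⟩
      rw [pow_succ', Module.End.mul_apply, LinearMap.sub_apply, LinearMap.smul_apply,
        Module.End.one_apply, sub_eq_zero] at hn
      exact hn

lemma proj_gen {s i : ℕ} {μ : W.K} {x : W.H X} (h : x ∈ (frob Φ X s).maxGenEigenspace μ) :
    proj (W.isInternal X) i x ∈ (frob Φ X s).maxGenEigenspace μ := by
  have h1 := gen_map (θ := proj (W.isInternal X) i) (T := frob Φ X s) (T' := frob Φ X s)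
    (c := (1 : W.K)) (ν := μ) (fun x => by rw [one_smul, frob_proj]) h
  rwa [one_mul] at h1

/-- Each eigenvalue occurs in some degree. -/
lemma exists_deg {s : ℕ} {μ : W.K} (h : (frob Φ X s).HasEigenvalue μ) :
    ∃ i, EigIn Φ X s i μ := by
  obtain ⟨x, hx, hx0⟩ := h.exists_hasEigenvector
  have hx1 := eig_mem_gen (Module.End.mem_eigenspace_iff.1 hx)
  by_contra hcon
  push Not at hcon
  apply hx0
  rw [sum_proj_apply x]
  apply Finset.sum_eq_zero
  intro i _
  by_contra hne
  exact hcon i (eigIn_of_gen (proj_mem _ _ _) hne (proj_gen hx1))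

/-- The generalised Tate classes are algebraic. -/
lemma gen_le_cyc (hp : 1 < p) (hRH : RiemannHyp Φ σ X) {m : ℕ} (hss : SemisimpleTateIn Φ X m)
    {s : ℕ} (hs : 0 < s) :
    (frob Φ X s).maxGenEigenspace ((card Φ X s : W.K) ^ m) ≤ cycSub W X m := by
  intro x hx
  rw [sum_proj_apply x]
  apply Submodule.sum_mem
  intro i _
  by_cases h0 : proj (W.isInternal X) i x = 0
  · rw [h0]; exact Submodule.zero_mem _
  have h1 := eigIn_of_gen (proj_mem _ _ _) h0 (proj_gen (i := i) hx)
  have h2 := h1.weight hRH hs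
  rw [map_pow, map_natCast, norm_pow, Complex.norm_natCast, ← pow_mul] at h2
  have h3 : (1 : ℝ) < card Φ X s := by
    exact_mod_cast Nat.one_lt_pow (Nat.mul_pos (Φ.e_pos X) hs).ne' hp
  have h4 : m * 2 = i := pow_right_injective₀ (zero_lt_one.trans h3) h3.ne' h2
  rw [cycSub_eq]
  apply hss s hs
  refine ⟨proj_gen hx, ?_⟩
  rw [← h4, mul_comm]
  exact proj_mem _ _ _

/-- The property that all Tate classes on `Z × U` are combinations of products with algebraic
classes of `Z`. -/
def Splits (Φ : FrobSystem W p) (Z U : 𝒱.Obj) : Prop :=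
  ∀ (b b' : ℕ), 0 < b → 0 < b' → Φ.e Z * b = Φ.e U * b' →
    ∀ (c : ℤ) (a : ℕ) (x : W.H Z ⊗[W.K] W.H U),
      Killed (TensorProduct.map (frob Φ Z b) (frob Φ U b')) ((card Φ Z b : W.K) ^ c) a x →
        x ∈ Submodule.span W.K {w | ∃ (i : ℕ) (y : W.H Z) (v : W.H U), y ∈ cycSub W Z i ∧
          Killed (frob Φ U b') ((card Φ Z b : W.K) ^ (c - i)) a v ∧ w = y ⊗ₜ v}

/-- **The Tate classes split if the slopes are disjoint.** -/
theorem splits_of_disjoint [IsAlgClosed W.K] [Fact p.Prime] (hRHZ : RiemannHyp Φ σ Z)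
    (hRHU : RiemannHyp Φ σ U) (hintZ : HasIntegralPolys Φ σ Z) (hintU : HasIntegralPolys Φ σ U)
    (hdis : SlopesDisjoint Φ σ Z U) (hss : ∀ c, SemisimpleTateIn Φ Z c) : Splits Φ Z U := by
  intro b b' hb hb' hbb c a x hx
  have hp1 := (Fact.out : p.Prime).one_lt
  have hQ : (card Φ Z b : W.K) ≠ 0 := card_ne Φ b
  refine (tensor_killed (F := frob Φ Z b) (G := frob Φ U b') (card Φ Z b : W.K) hQ c
    (fun i => cycSub W Z i) (fun i y hy => cyc_killed Φ hy) ?_ a x).1 hx
  intro μ ν N hN hν hrel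
  by_cases hμ : Module.End.HasEigenvalue (frob Φ Z b) μ
  swap
  · have h1 : Module.End.maxGenEigenspace (frob Φ Z b) μ = ⊥ := by
      by_contra hne
      apply hμ
      have h2 : (frob Φ Z b).HasUnifEigenvalue μ ⊤ := hne
      exact h2.lt one_pos
    rw [h1]
    exact bot_le
  rw [frob_pow_eq'] at hμ hν
  obtain ⟨lam, hlam, rfl⟩ := exists_eigenvalue_of_pow hμ
  obtain ⟨mu, hmu, rfl⟩ := exists_eigenvalue_of_pow hν
  have hlam' : (frob Φ Z 1).HasEigenvalue lam := by rwa [frob_pow_eq', pow_one]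
  have hmu' : (frob Φ U 1).HasEigenvalue mu := by rwa [frob_pow_eq', pow_one]
  obtain ⟨i, hi⟩ := exists_deg hlam'
  obtain ⟨j, hj⟩ := exists_deg hmu'
  have hrel' : lam ^ (b * N) * mu ^ (b' * N) =
      (p : W.K) ^ ((((b * N) * Φ.e Z : ℕ) : ℤ) * c) := by
    rw [pow_mul, pow_mul, ← mul_pow, hrel, ← zpow_natCast, ← zpow_mul, W534.card, Nat.cast_pow,
      ← zpow_natCast, ← zpow_mul]
    congr 1
    push_cast
    ring
  obtain ⟨⟨m, hm⟩, n, hn, hlamn⟩ := rel_torsion hRHZ hRHU hintZ hintU hdis hi hj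
    (Nat.mul_pos hb hN) (b := b' * N) (by
      calc b * N * Φ.e Z = (Φ.e Z * b) * N := by ring
        _ = (Φ.e U * b') * N := by rw [hbb]
        _ = _ := by ring) hrel'
  refine le_trans ?_ (le_iSup (fun i => cycSub W Z i) m)
  intro y hy
  have h1 := gen_pow_of_gen hy (2 * n)
  have h2 : (lam ^ b) ^ (2 * n) = (card Φ Z (b * (2 * n)) : W.K) ^ m := by
    rw [← pow_mul, mul_comm b (2 * n), pow_mul, hlamn, W534.card, Nat.cast_pow, ← pow_mul,
      ← pow_mul]
    congr 1
    rw [hm]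
    ring
  rw [← frob_mul_eq, h2] at h1
  exact gen_le_cyc hp1 hRHZ (hss m) (Nat.mul_pos hb (Nat.mul_pos two_pos hn)) h1

/-- Homological and numerical equivalence. -/
theorem homEqNum_of_semisimple [Fact p.Prime] (hRH : RiemannHyp Φ σ Z)
    (hss : ∀ c, SemisimpleTateIn Φ Z c) : HomEqNum W Z := by
  intro j hj z hz hnum
  have h1 := pole_of_semisimple hRH hss hj
  have h2 := (semisimple_of_pole (Φ := Φ) (Z := Z) (Fact.out : p.Prime).one_lt hRH
    (j := j) (l := Z.dim - j) (by omega) h1).2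
  exact homEqNumIn_of_pair (j := j) (l := Z.dim - j) (by omega) h2 z hz hnum

end Pool.Agent.K4H33.TS
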